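import Mathlib
import Pool.Agent.helper50.TwistSO3

/-!
Q1 of MP_96eab8_al: the character conjecture for compact quantum groups is false.

The counterexample is the twist `G ⊂ U_9^+` of `SO(3)^3` by a bicharacter cocycle on the dual
`F₂⁴` of a diagonal subgroup: `C(G)` is the C*-algebra of functions `SO(3)^3 → M_16(ℂ)` generated
by `w i j (x) = U(x) i j • X (κ i) ⊗ X (κ j)`, where `U` is the 9-dimensional standard
representation, the `X κ` are the 4 by 4 Heisenberg matrices of `κ ∈ F₂⁴`, and the degrees `κ i`
are the nonzero elements of the three planes `{(p, 0)}`, `{(0, q)}`, `{(r, M r)}` of `F₂² × F₂²`,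
where `M (a, b) = (a, a + b)`.
The element `P` is `f(χ_1) f(χ_2) f(χ_3)` with `χ_p` the three block characters and
`f(t) = max(0, (t-1)(3-t))`.
-/

set_option autoImplicit false

namespace Pool.Agent.Results.MP_96eab8_al.CharConjFalse

open Pool.Agent.CQG

/-- There are a connected compact matrix quantum group `G ⊂ U_9^+` and a nonzero `P` in
`C(G)_central` which is killed by the quotient map to every spun diagonal torus. -/
theorem result : ∃ G : CMQG 9, G.IsConnected ∧
    ∃ P ∈ G.central, P ≠ 0 ∧ ∀ Q ∈ Matrix.unitaryGroup (Fin 9) ℂ, P ∈ G.torusKernel Q :=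
  ⟨theData.cqg, theTri.counterexample⟩

end Pool.Agent.Results.MP_96eab8_al.CharConjFalse
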